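import Pool.Agent.H629.TA.Defs

set_option autoImplicit false

/-! Statements of the lemmas for MP_751612_pr (closed propositions). -/

open Finset MeasureTheory ProbabilityTheory

namespace Pool.Agent.H629.TA

/-! ### group D: draws -/

/-- basic rules -/
def S_DR : Prop :=
  ∀ (m : ℕ) (s : Finset ℕ) (p : ℕ → ℝ),
    (∀ c : ℝ, ∑ a ∈ s, p a = 1 → draw m s p (fun _ => c) = c) ∧
    (∀ f g : (Fin m → ℕ) → ℝ, draw m s p (fun j => f j + g j) = draw m s p f + draw m s p g) ∧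
    (∀ (c : ℝ) (f : (Fin m → ℕ) → ℝ), draw m s p (fun j => c * f j) = c * draw m s p f) ∧
    (∀ (f g : (Fin m → ℕ) → ℝ), (∀ a ∈ s, 0 ≤ p a) → (∀ j, (∀ l, j l ∈ s) → f j ≤ g j) →
      draw m s p f ≤ draw m s p g) ∧
    (∀ (f g : (Fin m → ℕ) → ℝ), (∀ j, (∀ l, j l ∈ s) → f j = g j) →
      draw m s p f = draw m s p g) ∧
    (∀ (f : (Fin m → ℕ) → ℝ), (∀ a ∈ s, 0 ≤ p a) → |draw m s p f| ≤ draw m s p (fun j => |f j|))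

/-- marginals -/
def S_MG : Prop :=
  ∀ (m r : ℕ) (s : Finset ℕ) (p : ℕ → ℝ) (e : Fin r → Fin m), Function.Injective e →
    ∑ a ∈ s, p a = 1 → ∀ φ : (Fin r → ℕ) → ℝ,
    draw m s p (fun j => φ (fun i => j (e i))) = draw r s p φ

/-- moments of the counts -/
def S_CT : Prop :=
  ∀ (m : ℕ) (s : Finset ℕ) (p : ℕ → ℝ), ∑ a ∈ s, p a = 1 →
    (∀ a ∈ s, draw m s p (fun j => (cnt j a : ℝ)) = m * p a) ∧
    (∀ a ∈ s, ∀ b ∈ s, a ≠ b →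
      draw m s p (fun j => (cnt j a : ℝ) * (cnt j b : ℝ)) = m * (m - 1) * (p a * p b)) ∧
    (∀ a ∈ s, draw m s p (fun j => (cnt j a : ℝ) ^ 2) = m * p a + m * (m - 1) * p a ^ 2) ∧
    (∀ a ∈ s, draw m s p (fun j => (cnt j a : ℝ) * ((cnt j a : ℝ) - 1)) = m * (m - 1) * p a ^ 2)

/-- growth under draws with fixed probabilities -/
def S_GW : Prop :=
  ∀ (m : ℕ) (s : Finset ℕ) (p : ℕ → ℝ), (∀ a ∈ s, 0 ≤ p a) → ∑ a ∈ s, p a = 1 →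
    ∀ (x : ℕ → ℝ) (ρ : ℝ), 0 ≤ ρ → ∀ F : (ℕ → ℝ) → ℝ,
    (∀ y : ℕ → ℝ, (∀ a ∈ s, x a ≤ y a) →
      ∑ a ∈ s, p a * F (Function.update y a (y a + 1)) ≤ ρ * F y) →
    ∀ y : ℕ → ℝ, (∀ a ∈ s, x a ≤ y a) →
      draw m s p (fun j => F (fun a => y a + (cnt j a : ℝ))) ≤ ρ ^ m * F y

/-- upper bounds for one step -/
def S_ON : Prop :=
  ∀ (m : ℕ) (s : Finset ℕ) (x : ℕ → ℝ) (L : ℝ), (∀ a ∈ s, 0 < x a) → 0 < L → ∑ a ∈ s, x a = L →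
    draw m s (fun a => x a / L) (fun j => ∑ a ∈ s,
        (x a + (cnt j a : ℝ)) * (x a + (cnt j a : ℝ) + 1) * (x a + (cnt j a : ℝ) + 2)) ≤
      (1 + 3 / L) ^ m * ∑ a ∈ s, x a * (x a + 1) * (x a + 2) ∧
    ∀ K : ℕ → ℕ → ℝ, (∀ a b, 0 ≤ K a b) → (∀ a, K a a = 0) →
      draw m s (fun a => x a / L) (fun j => ∑ a ∈ s, ∑ b ∈ s, K a b *
          (((x a + (cnt j a : ℝ)) * (x a + (cnt j a : ℝ) + 1)) *
            ((x b + (cnt j b : ℝ)) * (x b + (cnt j b : ℝ) + 1)))) ≤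
        (1 + 4 / L) ^ m * ∑ a ∈ s, ∑ b ∈ s, K a b * ((x a * (x a + 1)) * (x b * (x b + 1))) ∧
      draw m s (fun a => x a / L) (fun j => ∑ a ∈ s, ∑ b ∈ s, K a b *
          ((x a + (cnt j a : ℝ)) * (x b + (cnt j b : ℝ)))) ≤
        (1 + 2 / L) ^ m * ∑ a ∈ s, ∑ b ∈ s, K a b * (x a * x b)

/-- exact one step formulas -/
def S_EX : Prop :=
  ∀ (m : ℕ) (s : Finset ℕ) (x : ℕ → ℝ) (L : ℝ), 0 < L → ∑ a ∈ s, x a = L →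
    draw m s (fun a => x a / L) (fun j => ∑ a ∈ s, (x a + (cnt j a : ℝ)) ^ 2) =
      (1 + 2 * m / L + m * (m - 1) / L ^ 2) * ∑ a ∈ s, x a ^ 2 + m ∧
    draw m s (fun a => x a / L) (fun j => ∑ a ∈ s, (cnt j a : ℝ) * (x a + (cnt j a : ℝ))) =
      (m / L + m * (m - 1) / L ^ 2) * ∑ a ∈ s, x a ^ 2 + m ∧
    ∀ K : ℕ → ℕ → ℝ, (∀ a, K a a = 0) →
      draw m s (fun a => x a / L) (fun j => ∑ a ∈ s, ∑ b ∈ s, K a b *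
          ((x a + (cnt j a : ℝ)) * (x b + (cnt j b : ℝ)))) =
        (1 + 2 * m / L + m * (m - 1) / L ^ 2) * ∑ a ∈ s, ∑ b ∈ s, K a b * (x a * x b) ∧
      draw m s (fun a => x a / L) (fun j => ∑ a ∈ s, ∑ b ∈ s, K a b *
          ((cnt j a : ℝ) * (cnt j b : ℝ))) =
        m * (m - 1) / L ^ 2 * ∑ a ∈ s, ∑ b ∈ s, K a b * (x a * x b)

/-- squares -/
def S_SQ : Prop :=
  ∀ (m : ℕ) (s : Finset ℕ) (p : ℕ → ℝ), (∀ a ∈ s, 0 ≤ p a) → ∑ a ∈ s, p a = 1 → ∀ f : ℕ → ℝ,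
    draw m s p (fun j => (∑ a ∈ s, (cnt j a : ℝ) * f a) ^ 2) ≤ m ^ 2 * ∑ a ∈ s, p a * f a ^ 2

/-- second factorial moment of the number of new triangles -/
def S_XX : Prop :=
  ∀ m : ℕ, ∃ C : ℝ, 0 ≤ C ∧ ∀ (s : Finset ℕ) (x : ℕ → ℝ) (L : ℝ), (∀ a ∈ s, 0 < x a) → 0 < L →
    ∑ a ∈ s, x a = L → ∀ M : ℕ → ℕ → ℕ, (∀ a, M a a = 0) → (∀ a b, M a b = M b a) →
    ∀ ξ : (Fin m → ℕ) → ℝ,
    (∀ j, ξ j = (1 / 2) * ∑ a ∈ s, ∑ b ∈ s, (M a b : ℝ) * ((cnt j a : ℝ) * (cnt j b : ℝ))) →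
      draw m s (fun a => x a / L) (fun j => ξ j * (ξ j - 1)) ≤
        C * ((∑ a ∈ s, ∑ b ∈ s, ((M a b : ℝ) * ((M a b : ℝ) - 1)) * (x a * x b)) / L ^ 2 +
          (∑ a ∈ s, x a * (∑ b ∈ s, (M a b : ℝ) * x b) ^ 2) / L ^ 3 +
          (∑ a ∈ s, ∑ b ∈ s, (M a b : ℝ) * (x a * x b)) ^ 2 / L ^ 4)

/-! ### group B: the multigraph after one step -/

def S_UP : Prop :=
  ∀ (m k : ℕ) (h : Hist m) (j : Fin m → ℕ), 2 ≤ k → (∀ l, j l ∈ Icc 1 k) →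
    (∀ a b, mult m h a b = mult m h b a) ∧ (∀ a, mult m h a a = 0) ∧
    (∀ a ∈ Icc 1 k, ∀ b ∈ Icc 1 k, mult m (Function.update h (k + 1) j) a b = mult m h a b) ∧
    (∀ a ∈ Icc 1 k, mult m (Function.update h (k + 1) j) a (k + 1) = cnt j a) ∧
    (∀ a ∈ Icc 1 k, deg m (Function.update h (k + 1) j) (k + 1) a = deg m h k a + cnt j a) ∧
    deg m (Function.update h (k + 1) j) (k + 1) (k + 1) = m ∧
    (Valid m h k → Valid m (Function.update h (k + 1) j) (k + 1))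

def S_TR : Prop :=
  ∀ (m k : ℕ) (h : Hist m) (j : Fin m → ℕ), 2 ≤ k → (∀ l, j l ∈ Icc 1 k) →
    tri m (Function.update h (k + 1) j) k = tri m h k ∧
    tri m h k ≤ tri m (Function.update h (k + 1) j) (k + 1) ∧
    ((xi m k (Function.update h (k + 1) j) : ℕ) : ℝ) =
      (1 / 2) * ∑ a ∈ Icc 1 k, ∑ b ∈ Icc 1 k, (mult m h a b : ℝ) * ((cnt j a : ℝ) * (cnt j b : ℝ))

def S_TW : Prop :=
  ∀ (m k : ℕ) (h : Hist m), 2 ≤ k → Valid m h k →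
    ∑ a ∈ Icc 1 k, (deg m h k a : ℝ) = 2 * m * ((k : ℝ) - 1) ∧
    (∀ δ : ℝ, ∑ a ∈ Icc 1 k, wt m δ h k a = tot m δ k) ∧
    (∀ a ∈ Icc 1 k, m ≤ deg m h k a)

/-- the functionals after one step; `T` is the abbreviation for the new history -/
def S_NW : Prop :=
  ∀ (m k : ℕ) (δ : ℝ) (h : Hist m) (j : Fin m → ℕ), 2 ≤ k → (∀ l, j l ∈ Icc 1 k) →
    S2 m δ (k + 1) (Function.update h (k + 1) j) =
      ∑ a ∈ Icc 1 k, (wt m δ h k a + (cnt j a : ℝ)) ^ 2 + (m + δ) ^ 2 ∧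
    S3 m δ (k + 1) (Function.update h (k + 1) j) =
      ∑ a ∈ Icc 1 k, (wt m δ h k a + (cnt j a : ℝ)) * (wt m δ h k a + (cnt j a : ℝ) + 1) *
        (wt m δ h k a + (cnt j a : ℝ) + 2) + (m + δ) * (m + δ + 1) * (m + δ + 2) ∧
    WW m δ (k + 1) (Function.update h (k + 1) j) =
      (1 / 2) * ∑ a ∈ Icc 1 k, ∑ b ∈ Icc 1 k, (mult m h a b : ℝ) *
        ((wt m δ h k a + (cnt j a : ℝ)) * (wt m δ h k b + (cnt j b : ℝ))) +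
      (m + δ) * ∑ a ∈ Icc 1 k, (cnt j a : ℝ) * (wt m δ h k a + (cnt j a : ℝ)) ∧
    VV m δ (k + 1) (Function.update h (k + 1) j) =
      ∑ a ∈ Icc 1 k, ∑ b ∈ Icc 1 k, (mult m h a b : ℝ) *
        (((wt m δ h k a + (cnt j a : ℝ)) * (wt m δ h k a + (cnt j a : ℝ) + 1)) *
          ((wt m δ h k b + (cnt j b : ℝ)) * (wt m δ h k b + (cnt j b : ℝ) + 1))) +
      2 * ((m + δ) * (m + δ + 1)) * ∑ a ∈ Icc 1 k, (cnt j a : ℝ) *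
        ((wt m δ h k a + (cnt j a : ℝ)) * (wt m δ h k a + (cnt j a : ℝ) + 1)) ∧
    QQ m δ (k + 1) (Function.update h (k + 1) j) =
      ∑ a ∈ Icc 1 k, ∑ b ∈ Icc 1 k, ((mult m h a b : ℝ) * ((mult m h a b : ℝ) - 1)) *
        ((wt m δ h k a + (cnt j a : ℝ)) * (wt m δ h k b + (cnt j b : ℝ))) +
      2 * (m + δ) * ∑ a ∈ Icc 1 k, ((cnt j a : ℝ) * ((cnt j a : ℝ) - 1)) *
        (wt m δ h k a + (cnt j a : ℝ))

/-! ### group C: expectations of functions of the history -/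

/-- rules for `Ex`; `m ≥ 1`, `δ > 0` -/
def S_ER : Prop :=
  ∀ (m : ℕ) (δ : ℝ), 1 ≤ m → 0 < δ → ∀ i : ℕ,
    (∀ c : ℝ, Ex m δ i (fun _ => c) = c) ∧
    (∀ f g : Hist m → ℝ, Ex m δ i (fun h => f h + g h) = Ex m δ i f + Ex m δ i g) ∧
    (∀ (c : ℝ) (f : Hist m → ℝ), Ex m δ i (fun h => c * f h) = c * Ex m δ i f) ∧
    (∀ f g : Hist m → ℝ, (∀ h, Valid m h (i + 2) → f h ≤ g h) → Ex m δ i f ≤ Ex m δ i g) ∧
    (∀ f g : Hist m → ℝ, (∀ h, Valid m h (i + 2) → f h = g h) → Ex m δ i f = Ex m δ i g) ∧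
    (∀ f : Hist m → ℝ, |Ex m δ i f| ≤ Ex m δ i (fun h => |f h|)) ∧
    (∀ f g : Hist m → ℝ, Ex m δ i (fun h => f h * g h) ^ 2 ≤
      Ex m δ i (fun h => f h ^ 2) * Ex m δ i (fun h => g h ^ 2)) ∧
    (∀ f g : Hist m → ℝ, (∀ (h : Hist m) (j : Fin m → ℕ), (∀ l, j l ∈ Icc 1 (i + 2)) →
      f (Function.update h (i + 3) j) = g h) → Ex m δ (i + 1) f = Ex m δ i g)

/-- rules for `step` -/
def S_SR : Prop :=
  ∀ (m : ℕ) (δ : ℝ), 1 ≤ m → 0 < δ → ∀ (k : ℕ) (h : Hist m), 2 ≤ k → Valid m h k →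
    (∀ c : ℝ, step m δ k (fun _ => c) h = c) ∧
    (∀ f g : Hist m → ℝ, step m δ k (fun h => f h + g h) h = step m δ k f h + step m δ k g h) ∧
    (∀ (c : ℝ) (f : Hist m → ℝ), step m δ k (fun h => c * f h) h = c * step m δ k f h) ∧
    (∀ f g : Hist m → ℝ, (∀ j : Fin m → ℕ, (∀ l, j l ∈ Icc 1 k) →
      f (Function.update h (k + 1) j) ≤ g (Function.update h (k + 1) j)) →
      step m δ k f h ≤ step m δ k g h) ∧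
    (∀ f g : Hist m → ℝ, (∀ j : Fin m → ℕ, (∀ l, j l ∈ Icc 1 k) →
      f (Function.update h (k + 1) j) = g (Function.update h (k + 1) j)) →
      step m δ k f h = step m δ k g h)

/-- one step inequalities for the functionals -/
def S_P3 : Prop :=
  ∀ (m : ℕ) (δ : ℝ), 2 ≤ m → 0 < δ → ∃ C : ℝ, 0 ≤ C ∧ ∀ (k : ℕ) (h : Hist m), 2 ≤ k →
    Valid m h k →
    step m δ k (S3 m δ (k + 1)) h ≤ (1 + 3 / tot m δ k) ^ m * S3 m δ k h + C ∧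
    step m δ k (VV m δ (k + 1)) h ≤ (1 + 4 / tot m δ k) ^ m * VV m δ k h +
      C * (S3 m δ k h / tot m δ k) ∧
    step m δ k (QQ m δ (k + 1)) h ≤ (1 + 2 / tot m δ k) ^ m * QQ m δ k h +
      C * (S3 m δ k h / tot m δ k ^ 2)

/-- one step formulas for the functionals -/
def S_P2 : Prop :=
  ∀ (m : ℕ) (δ : ℝ), 2 ≤ m → 0 < δ → ∀ (k : ℕ) (h : Hist m), 2 ≤ k → Valid m h k →
    step m δ k (S2 m δ (k + 1)) h = al m δ k * S2 m δ k h + (m + (m + δ) ^ 2) ∧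
    step m δ k (WW m δ (k + 1)) h = al m δ k * WW m δ k h + be m δ k * S2 m δ k h + (m + δ) * m ∧
    step m δ k (fun h => (xi m k h : ℝ)) h = m * (m - 1) / tot m δ k ^ 2 * WW m δ k h

/-- conditional variances -/
def S_PV : Prop :=
  ∀ (m : ℕ) (δ : ℝ), 2 ≤ m → 0 < δ → ∃ C : ℝ, 0 ≤ C ∧ ∀ (k : ℕ) (h : Hist m), 2 ≤ k →
    Valid m h k →
    step m δ k (fun h' => (S2 m δ (k + 1) h' -
      (al m δ k * S2 m δ k h + (m + (m + δ) ^ 2))) ^ 2) h ≤ C * (S3 m δ k h / tot m δ k) ∧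
    step m δ k (fun h' => (WW m δ (k + 1) h' -
      (al m δ k * WW m δ k h + be m δ k * S2 m δ k h + (m + δ) * m)) ^ 2) h ≤
      C * ((VV m δ k h + S3 m δ k h) / tot m δ k)

/-- second factorial moment of the number of new triangles -/
def S_PX : Prop :=
  ∀ (m : ℕ) (δ : ℝ), 2 ≤ m → 0 < δ → ∃ C : ℝ, 0 ≤ C ∧ ∀ (k : ℕ) (h : Hist m), 2 ≤ k →
    Valid m h k →
    step m δ k (fun h' => (xi m k h' : ℝ) * ((xi m k h' : ℝ) - 1)) h ≤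
      C * (QQ m δ k h / tot m δ k ^ 2 + VV m δ k h / tot m δ k ^ 3 +
        WW m δ k h ^ 2 / tot m δ k ^ 4)

/-! ### group R: recursions for real sequences -/

/-- growth factors -/
def S_GF : Prop :=
  ∀ (m : ℕ) (δ : ℝ), 1 ≤ m → 0 < δ → ∃ K c : ℝ, 0 ≤ K ∧ 0 < c ∧ ∀ k : ℕ, 2 ≤ k →
    c * k ≤ tot m δ k ∧ tot m δ k ≤ K * k ∧
    (∀ r : ℕ, r ≤ 4 → (1 + r / tot m δ k) ^ m ≤ 1 + r * chi m δ / k + K / (k : ℝ) ^ 2) ∧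
    1 ≤ al m δ k ∧ al m δ k ≤ 1 + 2 * chi m δ / k + K / (k : ℝ) ^ 2 ∧
    al m δ k ^ 2 ≤ 1 + 4 * chi m δ / k + K / (k : ℝ) ^ 2 ∧
    0 ≤ be m δ k ∧ be m δ k ≤ K / k

def S_RC : Prop :=
  ∀ (τ t K C : ℝ), 0 ≤ τ → τ < t → 0 ≤ K → 0 ≤ C → ∃ C' : ℝ, 0 ≤ C' ∧ ∀ u : ℕ → ℝ,
    (∀ k, 0 ≤ u k) → u 2 ≤ C →
    (∀ k : ℕ, 2 ≤ k → u (k + 1) ≤ (1 + τ / k + K / (k : ℝ) ^ 2) * u k + C * (k : ℝ) ^ (t - 1)) →
    ∀ k : ℕ, 2 ≤ k → u k ≤ C' * (k : ℝ) ^ t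

def S_RV : Prop :=
  ∀ (τ t K C : ℝ), 0 ≤ τ → τ < t → 0 ≤ K → 0 ≤ C → ∃ C' : ℝ, 0 ≤ C' ∧
    ∀ u v a b : ℕ → ℝ, (∀ k, 0 ≤ u k) → (∀ k, 0 ≤ v k) → u 2 ≤ C →
    (∀ k : ℕ, 2 ≤ k → v k ≤ C * (k : ℝ) ^ t) →
    (∀ k : ℕ, 2 ≤ k → 0 ≤ a k ∧ a k ^ 2 ≤ 1 + τ / k + K / (k : ℝ) ^ 2) →
    (∀ k : ℕ, 2 ≤ k → 0 ≤ b k ∧ b k ≤ K / k) →
    (∀ k : ℕ, 2 ≤ k → u (k + 1) ≤
      (a k * Real.sqrt (u k) + b k * Real.sqrt (v k)) ^ 2 + C * (k : ℝ) ^ (t - 1)) →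
    ∀ k : ℕ, 2 ≤ k → u k ≤ C' * (k : ℝ) ^ t

/-- the variance of the number of triangles -/
def S_VS : Prop :=
  ∀ (c C e : ℝ), 0 < c → 0 ≤ C → 0 < e → ∃ C' : ℝ, 0 ≤ C' ∧ ∀ (v mu la : ℕ → ℝ),
    (∀ i, 0 ≤ v i) → v 0 = 0 → mu 0 = 0 →
    (∀ i : ℕ, mu (i + 1) = mu i + la i ∧ c / (i + 2) ≤ la i ∧ la i ≤ C / (i + 2)) →
    (∀ i : ℕ, |v (i + 1) - v i - la i| ≤
      2 * Real.sqrt (v i) * (C * (i + 2 : ℝ) ^ (-1 - e)) + C * (i + 2 : ℝ) ^ (-1 - e)) →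
    (∀ i : ℕ, |Real.sqrt (v i) - Real.sqrt (mu i)| ≤ C') ∧
    (∀ i : ℕ, 1 ≤ i → 1 / C' * Real.log (i + 2) ≤ mu i)

/-! ### group E: expectations of the functionals -/

/-- the exponent `t = 3/2 + χ` -/
noncomputable def tt (m : ℕ) (δ : ℝ) : ℝ := 3 / 2 + chi m δ

def S_E1 : Prop :=
  ∀ (m : ℕ) (δ : ℝ), 2 ≤ m → 0 < δ → ∃ C : ℝ, 0 ≤ C ∧ ∀ i : ℕ,
    Ex m δ i (S2 m δ (i + 2)) ≤ C * (i + 2 : ℝ) ∧
    Ex m δ i (S3 m δ (i + 2)) ≤ C * (i + 2 : ℝ) ^ tt m δ ∧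
    Ex m δ i (VV m δ (i + 2)) ≤ C * (i + 2 : ℝ) ^ tt m δ ∧
    Ex m δ i (QQ m δ (i + 2)) ≤ C * (i + 2 : ℝ) ^ (tt m δ - 1) ∧
    Ex m δ i (WW m δ (i + 2)) ≤ C * (i + 2 : ℝ)

def S_E2 : Prop :=
  ∀ (m : ℕ) (δ : ℝ), 2 ≤ m → 0 < δ → ∃ C : ℝ, 0 ≤ C ∧ ∀ i : ℕ,
    Ex m δ i (fun h => (S2 m δ (i + 2) h - Ex m δ i (S2 m δ (i + 2))) ^ 2) ≤
      C * (i + 2 : ℝ) ^ tt m δ ∧
    Ex m δ i (fun h => (WW m δ (i + 2) h - Ex m δ i (WW m δ (i + 2))) ^ 2) ≤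
      C * (i + 2 : ℝ) ^ tt m δ

/-- new triangles: mean and errors; `e = (2 - t) / 2 > 0` -/
def S_E3 : Prop :=
  ∀ (m : ℕ) (δ : ℝ), 2 ≤ m → 0 < δ → ∃ c C : ℝ, 0 < c ∧ 0 ≤ C ∧ ∀ i : ℕ,
    mT m δ 0 = 0 ∧ vT m δ 0 = 0 ∧
    c / (i + 2) ≤ mT m δ (i + 1) - mT m δ i ∧ mT m δ (i + 1) - mT m δ i ≤ C / (i + 2) ∧
    mT m δ (i + 1) - mT m δ i = Ex m δ i (fun h => step m δ (i + 2) (fun h => (xi m (i + 2) h : ℝ)) h) ∧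
    Ex m δ i (fun h => (step m δ (i + 2) (fun h => (xi m (i + 2) h : ℝ)) h -
      (mT m δ (i + 1) - mT m δ i)) ^ 2) ≤ (C * (i + 2 : ℝ) ^ (-1 - (2 - tt m δ) / 2)) ^ 2 ∧
    Ex m δ i (step m δ (i + 2) (fun h => (xi m (i + 2) h : ℝ) * ((xi m (i + 2) h : ℝ) - 1))) ≤
      C * (i + 2 : ℝ) ^ (-1 - (2 - tt m δ) / 2)

/-- recursion for the variance -/
def S_E4 : Prop :=
  ∀ (m : ℕ) (δ : ℝ), 2 ≤ m → 0 < δ → ∃ C : ℝ, 0 < C ∧ ∀ i : ℕ,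
    |Real.sqrt (vT m δ i) - Real.sqrt (mT m δ i)| ≤ C ∧
    (1 ≤ i → 1 / C * Real.log (i + 2) ≤ mT m δ i)

/-! ### group P: Poisson -/

/-- Poisson expectations of Lipschitz functions -/
def S_PO : Prop :=
  ∀ g : ℝ → ℝ, Lip g →
    Po 0 g = g 0 ∧
    (∀ lam : ℝ, 0 ≤ lam → Lip (fun a => Po lam (fun b => g (a + b)))) ∧
    (∀ lam mu : ℝ, 0 ≤ lam → 0 ≤ mu →
      Po (lam + mu) g = Po lam (fun a => Po mu (fun b => g (a + b)))) ∧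
    (∀ lam : ℝ, 0 ≤ lam → |Po lam g - g 0 - lam * (g 1 - g 0)| ≤ 2 * lam ^ 2)

/-- one draw compared with a Poisson variable -/
def S_SW : Prop :=
  ∀ (m : ℕ) (s : Finset ℕ) (p : ℕ → ℝ), (∀ a ∈ s, 0 ≤ p a) → ∑ a ∈ s, p a = 1 →
    ∀ (ξ : (Fin m → ℕ) → ℕ) (g : ℝ → ℝ) (lam : ℝ), Lip g → 0 ≤ lam →
    |draw m s p (fun j => g (ξ j)) - Po lam g| ≤
      |draw m s p (fun j => (ξ j : ℝ)) - lam| +
      2 * draw m s p (fun j => (ξ j : ℝ) * ((ξ j : ℝ) - 1)) + 2 * lam ^ 2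

/-- comparison of the number of triangles with a Poisson variable -/
def S_CP : Prop :=
  ∀ (m : ℕ) (δ : ℝ), 2 ≤ m → 0 < δ → ∃ C : ℝ, 0 ≤ C ∧ ∀ (i : ℕ) (g : ℝ → ℝ), Lip g →
    |Ex m δ i (fun h => g (tri m h (i + 2))) - Po (mT m δ i) g| ≤ C

/-- Stein equation -/
def S_ST : Prop :=
  ∃ C : ℝ, 0 ≤ C ∧ ∀ h : ℝ → ℝ, Lip h → ∃ f f' : ℝ → ℝ,
    (∀ x, HasDerivAt f (f' x) x) ∧
    (∀ x, f' x - x * f x = h x - ∫ y, h y ∂(gaussianReal 0 1)) ∧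
    (∀ x, |f x| ≤ C) ∧ (∀ x, |f' x| ≤ C) ∧ (∀ x y, |f' x - f' y| ≤ C * |x - y|)

/-- normal approximation of the Poisson distribution -/
def S_PN : Prop :=
  ∃ C : ℝ, 0 ≤ C ∧ ∀ (lam : ℝ) (h : ℝ → ℝ), 0 < lam → Lip h →
    |Po lam (fun x => h ((x - lam) / Real.sqrt lam)) - ∫ y, h y ∂(gaussianReal 0 1)| ≤
      C / Real.sqrt lam

/-- the result for the recursively defined expectations -/
def S_FI : Prop :=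
  ∀ (m : ℕ) (δ : ℝ), 2 ≤ m → 0 < δ → ∃ C : ℝ, 0 < C ∧ ∃ i0 : ℕ, ∀ i : ℕ, i0 ≤ i →
    0 < vT m δ i ∧ ∀ h : ℝ → ℝ, Lip h →
    |Ex m δ i (fun w => h (((tri m w (i + 2) : ℝ) - mT m δ i) / Real.sqrt (vT m δ i))) -
      ∫ y, h y ∂(gaussianReal 0 1)| ≤ C / Real.sqrt (Real.log (i + 2))

/-! ### group M: the process on a probability space -/

/-- The instantaneous preferential attachment process: `J k l` is the end point of the `l`-th edge of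
the vertex `k ≥ 3`; given the multigraph on `{1, …, k - 1}` the `m` end points are independent and
equal to `v` with probability `(deg v + δ) / (2 m (k - 2) + (k - 1) δ)`. -/
structure IsPA (m : ℕ) (δ : ℝ) {Ω : Type*} [MeasurableSpace Ω] (P : Measure Ω)
    (J : ℕ → Fin m → Ω → ℕ) : Prop where
  prob : IsProbabilityMeasure P
  meas : ∀ k l, Measurable (J k l)
  law : ∀ k : ℕ, 3 ≤ k → ∀ h : Hist m,
    P.real {ω | ∀ i ∈ Icc 3 k, ∀ l, J i l ω = h i l} =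
      P.real {ω | ∀ i ∈ Icc 3 (k - 1), ∀ l, J i l ω = h i l} *
        ∏ l, (if h k l ∈ Icc 1 (k - 1) then
          ((deg m h (k - 1) (h k l) : ℝ) + δ) / (2 * m * ((k : ℝ) - 2) + ((k : ℝ) - 1) * δ) else 0)

universe u

def S_MB : Prop :=
  ∀ (m : ℕ) (δ : ℝ), 1 ≤ m → 0 < δ → ∀ (Ω : Type u) [MeasurableSpace Ω] (P : Measure Ω)
    (J : ℕ → Fin m → Ω → ℕ), IsPA m δ P J → ∀ (i : ℕ) (f : Hist m → ℝ),
    (∀ h h' : Hist m, (∀ k ∈ Icc 3 (i + 2), ∀ l, h k l = h' k l) → f h = f h') →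
    Integrable (fun ω => f (fun k l => J k l ω)) P ∧
    ∫ ω, f (fun k l => J k l ω) ∂P = Ex m δ i f

/-- `tri m h n` depends only on the steps `3, …, n` -/
def S_TD : Prop :=
  ∀ (m n : ℕ) (h h' : Hist m), (∀ k ∈ Icc 3 n, ∀ l, h k l = h' k l) → tri m h n = tri m h' n

end Pool.Agent.H629.TA
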