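import Pool.Agent.H629.TA.Stm

set_option autoImplicit false

open Finset MeasureTheory ProbabilityTheory

namespace Pool.Agent.H629.TA

theorem Po_const_mul (lam c : ℝ) (g : ℝ → ℝ) : Po lam (fun x => c * g x) = c * Po lam g := by
  unfold Po
  rw [← tsum_mul_left]
  refine tsum_congr fun n => ?_
  ring

theorem t_FI : S_ER → S_E4 → S_CP → S_PN → S_FI := by
  intro hER hE4 hCP hPN m δ hm hδ
  obtain ⟨C4, hC4, h4⟩ := hE4 m δ hm hδ
  obtain ⟨Cc, hCc, hc⟩ := hCP m δ hm hδ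
  obtain ⟨Cp, hCp, hp⟩ := hPN
  have hlog : Filter.Tendsto (fun i : ℕ => Real.log ((i : ℝ) + 2)) Filter.atTop Filter.atTop :=
    Real.tendsto_log_atTop.comp
      (Filter.tendsto_atTop_add_const_right _ _ tendsto_natCast_atTop_atTop)
  obtain ⟨i1, hi1⟩ := Filter.eventually_atTop.1
    (hlog.eventually_gt_atTop (C4 * (C4 + 1) ^ 2))
  refine ⟨(C4 + Cc + Cp + 1) * Real.sqrt C4, by positivity, max i1 1, fun i hi => ?_⟩
  have hi0 : i1 ≤ i := (le_max_left _ _).trans hi
  have hi1' : 1 ≤ i := (le_max_right _ _).trans hi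
  have hL := hi1 i hi0
  have hLpos : 0 < Real.log ((i : ℝ) + 2) := lt_trans (by positivity) hL
  obtain ⟨ha, hb⟩ := h4 i
  have hmu := hb hi1'
  set Λ := mT m δ i with hΛ
  set s := Real.sqrt Λ with hs
  set σ := Real.sqrt (vT m δ i) with hσ
  have hΛ1 : (C4 + 1) ^ 2 < Λ := by
    refine lt_of_lt_of_le ?_ hmu
    rw [one_div, inv_mul_eq_div, lt_div_iff₀ hC4]
    linarith
  have hΛ0 : 0 < Λ := lt_trans (by positivity) hΛ1
  have hs1 : C4 + 1 < s := by
    rw [hs]
    exact Real.lt_sqrt_of_sq_lt hΛ1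
  have hs0 : 0 < s := by linarith
  have hσs := abs_le.1 ha
  have hσ0 : 0 < σ := by linarith [hσs.1]
  have hv0 : 0 < vT m δ i := Real.sqrt_pos.1 hσ0
  refine ⟨hv0, fun h hh => ?_⟩
  obtain ⟨e1, e2, e3, e4, e5, e6, e7, _⟩ := hER m δ (by omega) hδ i
  have hsub : ∀ f g : Hist m → ℝ, Ex m δ i (fun w => f w - g w) = Ex m δ i f - Ex m δ i g := by
    intro f g
    have := e2 f (fun w => (-1) * g w)
    rw [e3 (-1) g] at this
    rw [sub_eq_add_neg, ← neg_one_mul, ← this]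
    congr 1
    funext w
    ring
  -- first part
  have p1 : |Ex m δ i (fun w => h (((tri m w (i + 2) : ℝ) - Λ) / σ)) -
      Ex m δ i (fun w => h (((tri m w (i + 2) : ℝ) - Λ) / s))| ≤ C4 / s := by
    rw [← hsub]
    refine (e6 _).trans ?_
    have q1 : Ex m δ i (fun w => |h (((tri m w (i + 2) : ℝ) - Λ) / σ) -
        h (((tri m w (i + 2) : ℝ) - Λ) / s)|) ≤
        Ex m δ i (fun w => |1 / σ - 1 / s| * |(tri m w (i + 2) : ℝ) - Λ|) := by
      refine e4 _ _ fun w _ => ?_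
      refine (hh _ _).trans ?_
      rw [← abs_mul]
      apply le_of_eq
      congr 1
      ring
    refine q1.trans ?_
    rw [e3]
    have q2 : Ex m δ i (fun w => |(tri m w (i + 2) : ℝ) - Λ|) ≤ σ := by
      have q3 := e7 (fun w => |(tri m w (i + 2) : ℝ) - Λ|) (fun _ => 1)
      simp only [mul_one, one_pow, sq_abs, e1] at q3
      refine Real.le_sqrt_of_sq_le ?_
      exact q3
    have q4 : |1 / σ - 1 / s| = |s - σ| / (σ * s) := by
      rw [div_sub_div _ _ hσ0.ne' hs0.ne', abs_div, abs_of_pos (mul_pos hσ0 hs0)]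
      congr 2
      ring
    rw [q4]
    have q5 : |s - σ| ≤ C4 := by
      rw [abs_sub_comm]
      exact ha
    calc |s - σ| / (σ * s) * Ex m δ i (fun w => |(tri m w (i + 2) : ℝ) - Λ|)
        ≤ |s - σ| / (σ * s) * σ := by gcongr
      _ = |s - σ| / s := by field_simp
      _ ≤ C4 / s := by gcongr
  -- second part
  have p2 : |Ex m δ i (fun w => h (((tri m w (i + 2) : ℝ) - Λ) / s)) -
      Po Λ (fun x => h ((x - Λ) / s))| ≤ Cc / s := by
    have hL1 : Lip (fun x => s * h ((x - Λ) / s)) := by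
      intro x y
      rw [← mul_sub, abs_mul, abs_of_pos hs0]
      calc s * |h ((x - Λ) / s) - h ((y - Λ) / s)| ≤ s * |(x - Λ) / s - (y - Λ) / s| :=
            mul_le_mul_of_nonneg_left (hh _ _) hs0.le
        _ = |x - y| := by
            rw [← sub_div, abs_div, abs_of_pos hs0, mul_div_cancel₀ _ hs0.ne']
            congr 1
            ring
    have q := hc i _ hL1
    rw [e3 s (fun w => h (((tri m w (i + 2) : ℝ) - Λ) / s)),
      Po_const_mul, ← mul_sub, abs_mul, abs_of_pos hs0] at q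
    rw [le_div_iff₀ hs0, mul_comm]
    exact q
  -- third part
  have p3 := hp Λ h hΛ0 hh
  have tri3 : |Ex m δ i (fun w => h (((tri m w (i + 2) : ℝ) - Λ) / σ)) -
      ∫ y, h y ∂(gaussianReal 0 1)| ≤ C4 / s + Cc / s + Cp / s := by
    have := abs_sub_le (Ex m δ i (fun w => h (((tri m w (i + 2) : ℝ) - Λ) / σ)))
      (Ex m δ i (fun w => h (((tri m w (i + 2) : ℝ) - Λ) / s))) (∫ y, h y ∂(gaussianReal 0 1))
    have h2 := abs_sub_le (Ex m δ i (fun w => h (((tri m w (i + 2) : ℝ) - Λ) / s)))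
      (Po Λ (fun x => h ((x - Λ) / s))) (∫ y, h y ∂(gaussianReal 0 1))
    linarith
  refine tri3.trans ?_
  have hsL : Real.sqrt (Real.log ((i : ℝ) + 2)) ≤ Real.sqrt C4 * s := by
    rw [hs, ← Real.sqrt_mul hC4.le]
    apply Real.sqrt_le_sqrt
    rw [one_div, inv_mul_eq_div, div_le_iff₀ hC4] at hmu
    linarith
  have hLs : 0 < Real.sqrt (Real.log ((i : ℝ) + 2)) := Real.sqrt_pos.2 hLpos
  calc C4 / s + Cc / s + Cp / s = (C4 + Cc + Cp) / s := by ring
    _ ≤ (C4 + Cc + Cp + 1) / s := by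
        apply div_le_div_of_nonneg_right _ hs0.le
        linarith
    _ ≤ (C4 + Cc + Cp + 1) * Real.sqrt C4 / Real.sqrt (Real.log ((i : ℝ) + 2)) := by
        rw [div_le_div_iff₀ hs0 hLs]
        have : 0 ≤ C4 + Cc + Cp + 1 := by positivity
        nlinarith [mul_le_mul_of_nonneg_left hsL this]

end Pool.Agent.H629.TA
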