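import Pool.Agent.H629.TA.Stm

set_option autoImplicit false

/-! Existence of the process. -/

open Finset MeasureTheory ProbabilityTheory

namespace Pool.Agent.H629.TA

/-- the process exists -/
def S_EI : Prop :=
  ∀ (m : ℕ) (δ : ℝ), 1 ≤ m → 0 < δ → ∃ (Ω : Type) (_ : MeasurableSpace Ω) (P : Measure Ω)
    (J : ℕ → Fin m → Ω → ℕ), IsPA m δ P J

end Pool.Agent.H629.TA
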