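import Pool.Agent.H629.TA.Fin
import Pool.Agent.H629.TA.Stm2

set_option autoImplicit false

open Finset MeasureTheory ProbabilityTheory
open scoped ENNReal

namespace Pool.Agent.H629.TA

universe u

/-- The Wasserstein distance of two laws on the real line (supremum over the 1-Lipschitz test
functions). -/
noncomputable def dW (μ ν : Measure ℝ) : ℝ≥0∞ :=
  ⨆ (h : ℝ → ℝ) (_ : LipschitzWith 1 h), ENNReal.ofReal |∫ x, h x ∂μ - ∫ x, h x ∂ν|

/-- The number of triangles of the multigraph on `{1, …, n}`. -/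
def T {m : ℕ} {Ω : Type u} (J : ℕ → Fin m → Ω → ℕ) (n : ℕ) (ω : Ω) : ℝ :=
  (tri m (fun k l => J k l ω) n : ℝ)

section
variable {m : ℕ} {δ : ℝ} {Ω : Type u} [MeasurableSpace Ω] {P : Measure Ω} {J : ℕ → Fin m → Ω → ℕ}

theorem int_T (hMB : S_MB.{u}) (hTD : S_TD) (hm : 1 ≤ m) (hδ : 0 < δ) (hJ : IsPA m δ P J) (i : ℕ)
    (g : ℝ → ℝ) :
    Integrable (fun ω => g (T J (i + 2) ω)) P ∧
    ∫ ω, g (T J (i + 2) ω) ∂P = Ex m δ i (fun h => g (tri m h (i + 2))) := by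
  refine hMB m δ hm hδ Ω P J hJ i (fun h => g (tri m h (i + 2))) ?_
  intro h h' hh
  exact congrArg (fun t : ℕ => g (t : ℝ)) (hTD m (i + 2) h h' hh)

theorem mean_T (hMB : S_MB.{u}) (hTD : S_TD) (hm : 1 ≤ m) (hδ : 0 < δ) (hJ : IsPA m δ P J) (i : ℕ) :
    ∫ ω, T J (i + 2) ω ∂P = mT m δ i := (int_T hMB hTD hm hδ hJ i id).2

theorem var_T (hMB : S_MB.{u}) (hTD : S_TD) (hm : 1 ≤ m) (hδ : 0 < δ) (hJ : IsPA m δ P J) (i : ℕ) :
    Var[T J (i + 2); P] = vT m δ i := by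
  have h1 : Integrable (T J (i + 2)) P := (int_T hMB hTD hm hδ hJ i id).1
  have h2 := (int_T hMB hTD hm hδ hJ i (fun x => (x - mT m δ i) ^ 2)).2
  rw [variance_eq_integral h1.aemeasurable]
  rw [mean_T hMB hTD hm hδ hJ i]
  exact h2

theorem dW_T (hMB : S_MB.{u}) (hTD : S_TD) (hm : 1 ≤ m) (hδ : 0 < δ) (hJ : IsPA m δ P J) (i : ℕ)
    (R : ℝ)
    (hR : ∀ h : ℝ → ℝ, Lip h →
      |Ex m δ i (fun w => h (((tri m w (i + 2) : ℝ) - mT m δ i) / Real.sqrt (vT m δ i))) -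
        ∫ y, h y ∂(gaussianReal 0 1)| ≤ R) :
    dW (P.map fun ω => (T J (i + 2) ω - ∫ ω', T J (i + 2) ω' ∂P) / Real.sqrt (Var[T J (i + 2); P]))
      (gaussianReal 0 1) ≤ ENNReal.ofReal R := by
  unfold dW
  refine iSup₂_le fun h hh => ENNReal.ofReal_le_ofReal ?_
  have hL : Lip h := by
    intro x y
    have := hh.dist_le_mul x y
    simpa [Real.dist_eq] using this
  have hX : AEMeasurable (fun ω => (T J (i + 2) ω - ∫ ω', T J (i + 2) ω' ∂P) /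
      Real.sqrt (Var[T J (i + 2); P])) P := by
    have h1 : AEMeasurable (T J (i + 2)) P := (int_T hMB hTD hm hδ hJ i id).1.aemeasurable
    exact (h1.sub_const _).div_const _
  rw [integral_map hX hh.continuous.measurable.aestronglyMeasurable,
    mean_T hMB hTD hm hδ hJ i, var_T hMB hTD hm hδ hJ i,
    (int_T hMB hTD hm hδ hJ i (fun x => h ((x - mT m δ i) / Real.sqrt (vT m δ i)))).2]
  exact hR h hL

end

theorem main_of (hMB : S_MB.{u}) (hTD : S_TD) (hFI : S_FI) (hE4 : S_E4)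
    (m : ℕ) (hm : 2 ≤ m) (δ : ℝ) (hδ : 0 < δ) :
    ∃ C : ℝ, 0 < C ∧ ∃ n₀ : ℕ, ∀ (Ω : Type u) [MeasurableSpace Ω] (P : Measure Ω)
      (J : ℕ → Fin m → Ω → ℕ), IsPA m δ P J → ∀ n : ℕ, n₀ ≤ n →
      0 < Var[T J n; P] ∧
      dW (P.map fun ω => (T J n ω - ∫ ω', T J n ω' ∂P) / Real.sqrt (Var[T J n; P]))
        (gaussianReal 0 1) ≤ ENNReal.ofReal (C / Real.sqrt (Real.log n)) ∧
      |Real.sqrt (Var[T J n; P]) - Real.sqrt (∫ ω, T J n ω ∂P)| ≤ C ∧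
      Real.log n ≤ C * ∫ ω, T J n ω ∂P := by
  obtain ⟨C1, hC1, i0, h1⟩ := hFI m δ hm hδ
  obtain ⟨C2, hC2, h2⟩ := hE4 m δ hm hδ
  refine ⟨max C1 C2, lt_of_lt_of_le hC1 (le_max_left _ _), i0 + 3, ?_⟩
  intro Ω _ P J hJ n hn
  obtain ⟨i, rfl⟩ : ∃ i, n = i + 2 := ⟨n - 2, by omega⟩
  have hi : i0 ≤ i := by omega
  have hm1 : 1 ≤ m := by omega
  obtain ⟨hv, hb⟩ := h1 i hi
  obtain ⟨k1, k2⟩ := h2 i
  have k3 := k2 (by omega)
  have hc : ((i + 2 : ℕ) : ℝ) = (i : ℝ) + 2 := by push_cast; ring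
  rw [var_T hMB hTD hm1 hδ hJ i, mean_T hMB hTD hm1 hδ hJ i, hc]
  refine ⟨hv, ?_, k1.trans (le_max_right _ _), ?_⟩
  · have hlog : 0 ≤ Real.sqrt (Real.log ((i : ℝ) + 2)) := Real.sqrt_nonneg _
    have key := dW_T hMB hTD hm1 hδ hJ i (max C1 C2 / Real.sqrt (Real.log ((i : ℝ) + 2)))
      (fun h hh => (hb h hh).trans (div_le_div_of_nonneg_right (le_max_left _ _) hlog))
    rw [var_T hMB hTD hm1 hδ hJ i, mean_T hMB hTD hm1 hδ hJ i] at key
    exact key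
  · have hmT : 0 ≤ mT m δ i := by
      refine le_trans ?_ k3
      have : 0 ≤ Real.log ((i : ℝ) + 2) := Real.log_nonneg (by linarith [(Nat.cast_nonneg i : (0 : ℝ) ≤ i)])
      positivity
    rw [one_div, inv_mul_eq_div, div_le_iff₀ hC2] at k3
    calc Real.log ((i : ℝ) + 2) ≤ mT m δ i * C2 := k3
      _ = C2 * mT m δ i := mul_comm _ _
      _ ≤ max C1 C2 * mT m δ i := mul_le_mul_of_nonneg_right (le_max_right _ _) hmT

end Pool.Agent.H629.TA
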