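import Pool.Agent.H152.TA.DR
import Pool.Agent.H703.TA.MG
import Pool.Agent.H387.TA.CT
import Pool.Agent.H814.TA.GW
import Pool.Agent.H404.TA.ON
import Pool.Agent.H549.TA.EX
import Pool.Agent.H695.TA.SQ
import Pool.Agent.H746.TA.XX
import Pool.Agent.H25.TA.UP
import Pool.Agent.H707.TA.TR
import Pool.Agent.H157.TA.TW
import Pool.Agent.H322.TA.NW
import Pool.Agent.H726.TA.ER
import Pool.Agent.H661.TA.SR
import Pool.Agent.H671.TA.P3
import Pool.Agent.H653.TA.P2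
import Pool.Agent.H117.TA.PV
import Pool.Agent.H922.TA.PX
import Pool.Agent.H675.TA.GF
import Pool.Agent.H675.TA.RC
import Pool.Agent.H675.TA.RV
import Pool.Agent.H84.TA.E1
import Pool.Agent.H299.TA.E2
import Pool.Agent.H77.TA.E3
import Pool.Agent.H675.TA.VS
import Pool.Agent.H152.TA.E4
import Pool.Agent.H216.TA.PO
import Pool.Agent.H546.TA.ST
import Pool.Agent.H658.TA.SW
import Pool.Agent.H314.TA.CP
import Pool.Agent.H767.TA.PN
import Pool.Agent.H102.TA.MB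
import Pool.Agent.H396.TA.EI
import Pool.Agent.H629.TA.Fin
import Pool.Agent.H629.TA.Fin2

set_option autoImplicit false

/-! Assembly. -/

open Finset MeasureTheory ProbabilityTheory

universe u

namespace Pool.Agent.H629.TA

theorem a_DR : S_DR := H152.TA.DR.t_DR
theorem a_MG : S_MG := H703.TA.MG.t_MG
theorem a_CT : S_CT := H387.TA.CT.t_CT a_DR a_MG
theorem a_GW : S_GW := H814.TA.GW.t_GW
theorem a_ON : S_ON := H404.TA.ON.t_ON a_GW
theorem a_EX : S_EX := H549.TA.EX.t_EX a_DR a_CT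
theorem a_SQ : S_SQ := H695.TA.SQ.t_SQ a_DR a_MG
theorem a_XX : S_XX := H746.TA.XX.t_XX a_DR a_MG
theorem a_UP : S_UP := H25.TA.UP.t_UP
theorem a_TR : S_TR := H707.TA.TR.t_TR a_UP
theorem a_TD : S_TD := H707.TA.TR.t_TD
theorem a_TW : S_TW := H157.TA.TW.t_TW
theorem a_NW : S_NW := H322.TA.NW.t_NW a_UP
theorem a_ER : S_ER := H726.TA.ER.t_ER a_DR a_UP a_TW
theorem a_SR : S_SR := H661.TA.SR.t_SR a_DR a_TW
theorem a_P3 : S_P3 := H671.TA.P3.t_P3 a_DR a_CT a_ON a_NW a_TW a_SR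
theorem a_P2 : S_P2 := H653.TA.P2.t_P2 a_DR a_EX a_NW a_TR a_TW a_SR
theorem a_PV : S_PV := H117.TA.PV.t_PV a_DR a_SQ a_NW a_TW a_SR a_P2
theorem a_PX : S_PX := H922.TA.PX.t_PX a_XX a_TR a_TW
theorem a_GF : S_GF := H675.TA.GF.t_GF
theorem a_RC : S_RC := H675.TA.RC.t_RC
theorem a_RV : S_RV := H675.TA.RV.t_RV a_RC
theorem a_E1 : S_E1 := H84.TA.E1.t_E1 a_ER a_SR a_P3 a_P2 a_GF a_RC
theorem a_E2 : S_E2 := H299.TA.E2.t_E2 a_ER a_SR a_P2 a_PV a_GF a_RC a_RV a_E1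
theorem a_E3 : S_E3 := H77.TA.E3.t_E3 a_ER a_SR a_UP a_TR a_TW a_P2 a_PX a_GF a_E1 a_E2
theorem a_VS : S_VS := H675.TA.VS.t_VS
theorem a_E4 : S_E4 := H152.TA.E4.t_E4 a_ER a_SR a_UP a_TR a_TW a_E3 a_VS
theorem a_PO : S_PO := H216.TA.PO.t_PO
theorem a_SW : S_SW := H658.TA.SW.t_SW a_DR a_PO
theorem a_CP : S_CP := H314.TA.CP.t_CP a_ER a_SR a_UP a_TR a_TW a_E3 a_PO a_SW
theorem a_ST : S_ST := H546.TA.ST.t_ST
theorem a_PN : S_PN := H767.TA.PN.t_PN a_PO a_ST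
theorem a_FI : S_FI := t_FI a_ER a_E4 a_CP a_PN
theorem a_EI : S_EI := H396.TA.EI.t_EI a_TW
theorem a_MB : S_MB.{u} := H102.TA.MB.t_MB a_UP a_TW a_ER

end Pool.Agent.H629.TA
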