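import Mathlib

set_option autoImplicit false

/-!
Definitions for the triangle count in the instantaneous preferential attachment model
(MP_751612_pr).  Histories, multiplicities, degrees, expectations.
-/

open Finset

namespace Pool.Agent.H629.TA

/-- A history: `h k l` is the second end point of the `l`-th edge of the vertex `k` (`k ≥ 3`). -/
abbrev Hist (m : ℕ) : Type := ℕ → Fin m → ℕ

/-- Number of edges joining the vertices `a` and `b` (vertices are `1, 2, 3, …`; the vertices `1` and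
`2` are joined by `m` edges). -/
def mult (m : ℕ) (h : Hist m) (a b : ℕ) : ℕ :=
  if a = b then 0 else if max a b ≤ 2 then m else
    (univ.filter fun l : Fin m => h (max a b) l = min a b).card

/-- Degree of the vertex `a` in the multigraph on `{1, …, k}`. -/
def deg (m : ℕ) (h : Hist m) (k a : ℕ) : ℕ := ∑ b ∈ Icc 1 k, mult m h a b

/-- Number of triangles, with edge multiplicity, of the multigraph on `{1, …, n}`. -/
def tri (m : ℕ) (h : Hist m) (n : ℕ) : ℕ :=
  ∑ a ∈ Icc 1 n, ∑ b ∈ Icc 1 n, ∑ c ∈ Icc 1 n,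
    if a < b ∧ b < c then mult m h a b * mult m h b c * mult m h a c else 0

/-- The weight `deg + δ`. -/
noncomputable def wt (m : ℕ) (δ : ℝ) (h : Hist m) (k a : ℕ) : ℝ := (deg m h k a : ℝ) + δ

/-- The total weight of the multigraph on `{1, …, k}`. -/
noncomputable def tot (m : ℕ) (δ : ℝ) (k : ℕ) : ℝ := 2 * m * ((k : ℝ) - 1) + k * δ

/-- How often the value `a` is drawn. -/
def cnt {m : ℕ} (j : Fin m → ℕ) (a : ℕ) : ℕ := (univ.filter fun l => j l = a).card

/-- Expectation of `φ (j)` for `m` independent draws from `s` with the weights `p`. -/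
noncomputable def draw (m : ℕ) (s : Finset ℕ) (p : ℕ → ℝ) (φ : (Fin m → ℕ) → ℝ) : ℝ :=
  ∑ j ∈ Fintype.piFinset (fun _ : Fin m => s), (∏ l, p (j l)) * φ j

/-- Conditional expectation, given the multigraph on `{1, …, k}`, of a function of the history up to
the vertex `k + 1`. -/
noncomputable def step (m : ℕ) (δ : ℝ) (k : ℕ) (f : Hist m → ℝ) (h : Hist m) : ℝ :=
  draw m (Icc 1 k) (fun a => wt m δ h k a / tot m δ k) (fun j => f (Function.update h (k + 1) j))

/-- Expectation of a function of the history up to the vertex `i + 2`. -/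
noncomputable def Ex (m : ℕ) (δ : ℝ) : ℕ → (Hist m → ℝ) → ℝ
  | 0, f => f (fun _ _ => 0)
  | i + 1, f => Ex m δ i (step m δ (i + 2) f)

/-- Histories up to the vertex `k` in which every edge of the vertex `i` goes to an older vertex. -/
def Valid (m : ℕ) (h : Hist m) (k : ℕ) : Prop := ∀ i, 3 ≤ i → i ≤ k → ∀ l, h i l ∈ Icc 1 (i - 1)

/-- `∑ x²` -/
noncomputable def S2 (m : ℕ) (δ : ℝ) (k : ℕ) (h : Hist m) : ℝ := ∑ a ∈ Icc 1 k, wt m δ h k a ^ 2

/-- `∑ x (x + 1) (x + 2)` -/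
noncomputable def S3 (m : ℕ) (δ : ℝ) (k : ℕ) (h : Hist m) : ℝ :=
  ∑ a ∈ Icc 1 k, wt m δ h k a * (wt m δ h k a + 1) * (wt m δ h k a + 2)

/-- half of the sum over ordered pairs of `M_ab x_a x_b` -/
noncomputable def WW (m : ℕ) (δ : ℝ) (k : ℕ) (h : Hist m) : ℝ :=
  (1 / 2) * ∑ a ∈ Icc 1 k, ∑ b ∈ Icc 1 k, (mult m h a b : ℝ) * (wt m δ h k a * wt m δ h k b)

/-- `∑ M_ab x_a (x_a + 1) x_b (x_b + 1)` -/
noncomputable def VV (m : ℕ) (δ : ℝ) (k : ℕ) (h : Hist m) : ℝ :=
  ∑ a ∈ Icc 1 k, ∑ b ∈ Icc 1 k, (mult m h a b : ℝ) *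
    ((wt m δ h k a * (wt m δ h k a + 1)) * (wt m δ h k b * (wt m δ h k b + 1)))

/-- `∑ M_ab (M_ab - 1) x_a x_b` -/
noncomputable def QQ (m : ℕ) (δ : ℝ) (k : ℕ) (h : Hist m) : ℝ :=
  ∑ a ∈ Icc 1 k, ∑ b ∈ Icc 1 k, ((mult m h a b : ℝ) * ((mult m h a b : ℝ) - 1)) *
    (wt m δ h k a * wt m δ h k b)

/-- the number of the triangles created by the vertex `k + 1` -/
def xi (m : ℕ) (k : ℕ) (h : Hist m) : ℕ := tri m h (k + 1) - tri m h k

/-- the exponent `χ = m / (2 m + δ) < 1/2` -/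
noncomputable def chi (m : ℕ) (δ : ℝ) : ℝ := m / (2 * m + δ)

/-- `α_k = 1 + 2 m / L + m (m - 1) / L²` -/
noncomputable def al (m : ℕ) (δ : ℝ) (k : ℕ) : ℝ :=
  1 + 2 * m / tot m δ k + m * (m - 1) / tot m δ k ^ 2

/-- `β_k` -/
noncomputable def be (m : ℕ) (δ : ℝ) (k : ℕ) : ℝ :=
  (m + δ) * (m / tot m δ k + m * (m - 1) / tot m δ k ^ 2)

/-- Poisson expectation -/
noncomputable def Po (lam : ℝ) (g : ℝ → ℝ) : ℝ :=
  ∑' n : ℕ, Real.exp (-lam) * lam ^ n / (n.factorial : ℝ) * g n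

/-- `h` is 1-Lipschitz -/
def Lip (h : ℝ → ℝ) : Prop := ∀ x y, |h x - h y| ≤ |x - y|

/-- mean of the number of triangles on `{1, …, k}` -/
noncomputable def mT (m : ℕ) (δ : ℝ) (i : ℕ) : ℝ := Ex m δ i (fun h => (tri m h (i + 2) : ℝ))

/-- variance of the number of triangles on `{1, …, i + 2}` -/
noncomputable def vT (m : ℕ) (δ : ℝ) (i : ℕ) : ℝ :=
  Ex m δ i (fun h => ((tri m h (i + 2) : ℝ) - mT m δ i) ^ 2)

end Pool.Agent.H629.TA
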